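import Mathlib
import Pool.Agent.H23.MTileB

set_option autoImplicit false

namespace Pool.Agent.Results.MP_5dc1dd_co.Triangle
open Pool.Agent.H23.MTile

theorem result : ∃ (P : Set Plane) (d : ℕ), IsTriangle P ∧ 2 ≤ d ∧ HasIrred P d :=
  ⟨Pt, 2, ⟨_, _, _, li (-3) (by norm_num), rfl⟩, le_rfl, tri_irred⟩

end Pool.Agent.Results.MP_5dc1dd_co.Triangle
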